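import Mathlib

/-!
# MP_09575c_lc : binary-submodular expressibility versus the cone of fans

For every `k ≥ 5` the function `f(x) = min(0, 3 - 2x₀ - x₁ - x₂ - x₃ - x₄)` on `{0,1}^k` is
submodular and expressible by binary submodular functions with a single extra variable, but it is
not a nonnegative combination of fans plus a constant.  The separating functional is
`ℓ : {0,1}^5 → ℤ` below.
-/

set_option autoImplicit false

namespace Pool.Agent.Results.MP_09575c_lc.ThresholdNotFans

/-- `B k = {0,1}^k` with the coordinatewise order; `⊓`, `⊔` are meet and join. -/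
abbrev B (k : ℕ) := Fin k → Bool

/-- Submodular real functions on `B k`. -/
def Submodular {k : ℕ} (f : B k → ℝ) : Prop :=
  ∀ u v : B k, f (u ⊓ v) + f (u ⊔ v) ≤ f u + f v

/-- `f : B n → ℝ` is expressible by binary submodular functions using `j` extra variables:
`f x = min over y ∈ B j of ∑ i, α i * g i (z i, z' i) + κ`, where the `g i` are submodular
functions on `B 2`, `α i ≥ 0`, and `z i`, `z' i` are variables among
`x₁,…,xₙ,y₁,…,y_j`. -/
def ExpressibleWith {n : ℕ} (j : ℕ) (f : B n → ℝ) : Prop :=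
  ∃ (r : ℕ) (g : Fin r → B 2 → ℝ) (α : Fin r → ℝ) (z z' : Fin r → Fin n ⊕ Fin j) (κ : ℝ),
    (∀ i, Submodular (g i)) ∧ (∀ i, 0 ≤ α i) ∧
    ∀ x : B n, IsLeast
      (Set.range fun y : B j =>
        (∑ i, α i * g i ![Sum.elim x y (z i), Sum.elim x y (z' i)]) + κ) (f x)

/-- `f ∈ ⟨Γ_{sub,2}⟩`. -/
def Expressible {n : ℕ} (f : B n → ℝ) : Prop := ∃ j : ℕ, ExpressibleWith j f

/-- The index sets of upper fans: pairwise incomparable, all pairwise joins equal to `⋁ A`. -/
def JoinFamily {k : ℕ} (A : Finset (B k)) : Prop :=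
  (∀ a ∈ A, ∀ b ∈ A, a ≠ b → ¬ a ≤ b) ∧ (∀ a ∈ A, ∀ b ∈ A, a ≠ b → a ⊔ b = A.sup id)

/-- The index sets of lower fans: pairwise incomparable, all pairwise meets equal to `⋀ A`. -/
def MeetFamily {k : ℕ} (A : Finset (B k)) : Prop :=
  (∀ a ∈ A, ∀ b ∈ A, a ≠ b → ¬ a ≤ b) ∧ (∀ a ∈ A, ∀ b ∈ A, a ≠ b → a ⊓ b = A.inf id)

open Classical in
/-- The upper fan of `A`. -/
noncomputable def upperFan {k : ℕ} (A : Finset (B k)) (x : B k) : ℝ :=
  if A.sup id ≤ x then -2 else if ∃ a ∈ A, a ≤ x then -1 else 0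

open Classical in
/-- The lower fan of `A`. -/
noncomputable def lowerFan {k : ℕ} (A : Finset (B k)) (x : B k) : ℝ :=
  if x ≤ A.inf id then -2 else if ∃ a ∈ A, x ≤ a then -1 else 0

/-- `Γ_{fans,k}`. -/
def IsFan {k : ℕ} (φ : B k → ℝ) : Prop :=
  (∃ A : Finset (B k), JoinFamily A ∧ φ = upperFan A) ∨
  (∃ A : Finset (B k), MeetFamily A ∧ φ = lowerFan A)

/-- Membership in `Cone(Γ_{fans,k})`, up to adding a real constant. -/
def InFanCone {k : ℕ} (f : B k → ℝ) : Prop :=
  ∃ (r : ℕ) (φ : Fin r → B k → ℝ) (c : Fin r → ℝ) (κ : ℝ),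
    (∀ i, IsFan (φ i)) ∧ (∀ i, 0 ≤ c i) ∧ ∀ x, f x = (∑ i, c i * φ i x) + κ

/-- 0/1 value of a Boolean. -/
def val (b : Bool) : ℝ := if b then 1 else 0

/-- The weighted sum `2x₀ + x₁ + x₂ + x₃ + x₄`. -/
def wt {k : ℕ} (hk : 5 ≤ k) (x : B k) : ℝ :=
  2 * val (x ⟨0, by omega⟩) + val (x ⟨1, by omega⟩) + val (x ⟨2, by omega⟩)
    + val (x ⟨3, by omega⟩) + val (x ⟨4, by omega⟩)

/-- The function `min(0, 3 - 2x₀ - x₁ - x₂ - x₃ - x₄)`. -/
noncomputable def thr {k : ℕ} (hk : 5 ≤ k) (x : B k) : ℝ := min 0 (3 - wt hk x)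

/-! ### Submodularity -/

lemma val_mod (a b : Bool) : val (a ⊓ b) + val (a ⊔ b) = val a + val b := by
  cases a <;> cases b <;> simp [val]

lemma val_mono (a b : Bool) : val (a ⊓ b) ≤ val a := by
  cases a <;> cases b <;> simp [val]

lemma wt_mod {k : ℕ} (hk : 5 ≤ k) (u v : B k) :
    wt hk (u ⊓ v) + wt hk (u ⊔ v) = wt hk u + wt hk v := by
  unfold wt
  simp only [Pi.inf_apply, Pi.sup_apply]
  have h := fun i => val_mod (u i) (v i)
  linarith [h ⟨0, by omega⟩, h ⟨1, by omega⟩, h ⟨2, by omega⟩, h ⟨3, by omega⟩, h ⟨4, by omega⟩]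

lemma wt_mono {k : ℕ} (hk : 5 ≤ k) (u v : B k) : wt hk (u ⊓ v) ≤ wt hk u := by
  unfold wt
  simp only [Pi.inf_apply]
  have h := fun i => val_mono (u i) (v i)
  linarith [h ⟨0, by omega⟩, h ⟨1, by omega⟩, h ⟨2, by omega⟩, h ⟨3, by omega⟩, h ⟨4, by omega⟩]

lemma thr_submodular {k : ℕ} (hk : 5 ≤ k) : Submodular (thr hk) := by
  intro u v
  have h1 := wt_mod hk u v
  have h2 := wt_mono hk u v
  have h3 : wt hk (u ⊓ v) ≤ wt hk v := by
    rw [inf_comm]; exact wt_mono hk v u
  unfold thr
  simp only [min_def]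
  split_ifs <;> linarith

/-! ### Expressibility with one extra variable -/

/-- `-xy`. -/
noncomputable def gneg (u : B 2) : ℝ := if u 0 = true ∧ u 1 = true then -1 else 0

/-- `y`. -/
noncomputable def gpos (u : B 2) : ℝ := if u 1 = true then 1 else 0

lemma gneg_sub : Submodular gneg := by
  intro u v
  have key : ∀ a b c d : Bool,
      (if (a ⊓ c) = true ∧ (b ⊓ d) = true then (-1 : ℝ) else 0) +
        (if (a ⊔ c) = true ∧ (b ⊔ d) = true then (-1 : ℝ) else 0) ≤
      (if a = true ∧ b = true then (-1 : ℝ) else 0) +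
        (if c = true ∧ d = true then (-1 : ℝ) else 0) := by
    intro a b c d
    cases a <;> cases b <;> cases c <;> cases d <;> norm_num
  exact key (u 0) (u 1) (v 0) (v 1)

lemma gpos_sub : Submodular gpos := by
  intro u v
  have key : ∀ b d : Bool,
      (if (b ⊓ d) = true then (1 : ℝ) else 0) + (if (b ⊔ d) = true then (1 : ℝ) else 0) ≤
      (if b = true then (1 : ℝ) else 0) + (if d = true then (1 : ℝ) else 0) := by
    intro b d
    cases b <;> cases d <;> norm_num
  exact key (u 1) (v 1)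

lemma thr_expressible {k : ℕ} (hk : 5 ≤ k) : ExpressibleWith 1 (thr hk) := by
  refine ⟨6, ![gneg, gneg, gneg, gneg, gneg, gpos], ![2, 1, 1, 1, 1, 3],
    ![Sum.inl ⟨0, by omega⟩, Sum.inl ⟨1, by omega⟩, Sum.inl ⟨2, by omega⟩,
      Sum.inl ⟨3, by omega⟩, Sum.inl ⟨4, by omega⟩, Sum.inr 0],
    fun _ => Sum.inr 0, 0, ?_, ?_, ?_⟩
  · intro i; fin_cases i <;> first | exact gneg_sub | exact gpos_sub
  · intro i; fin_cases i <;> simp
  · intro x
    have key : ∀ y : B 1,
        (∑ i, (![2, 1, 1, 1, 1, 3] : Fin 6 → ℝ) i *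
          (![gneg, gneg, gneg, gneg, gneg, gpos] : Fin 6 → B 2 → ℝ) i
          ![Sum.elim x y ((![Sum.inl ⟨0, by omega⟩, Sum.inl ⟨1, by omega⟩, Sum.inl ⟨2, by omega⟩,
              Sum.inl ⟨3, by omega⟩, Sum.inl ⟨4, by omega⟩, Sum.inr 0] :
              Fin 6 → Fin k ⊕ Fin 1) i), Sum.elim x y ((fun _ => Sum.inr 0 :
              Fin 6 → Fin k ⊕ Fin 1) i)]) + 0
        = if y 0 = true then 3 - wt hk x else 0 := by
      intro y
      simp only [Fin.sum_univ_succ, Fin.sum_univ_zero, Matrix.cons_val_zero,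
        Matrix.cons_val_succ, Sum.elim_inl, Sum.elim_inr, gneg, gpos, wt, val,
        Matrix.cons_val_one]
      cases y 0
      · simp
      · cases x ⟨0, by omega⟩ <;> cases x ⟨1, by omega⟩ <;> cases x ⟨2, by omega⟩ <;>
          cases x ⟨3, by omega⟩ <;> cases x ⟨4, by omega⟩ <;> norm_num
    constructor
    · by_cases h : 3 - wt hk x ≤ 0
      · refine ⟨fun _ => true, (key _).trans ?_⟩
        simp [thr, h]
      · refine ⟨fun _ => false, (key _).trans ?_⟩
        push Not at h
        simp [thr, h.le]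
    · rintro _ ⟨y, rfl⟩
      refine le_of_le_of_eq ?_ (key y).symm
      unfold thr
      split_ifs
      · exact min_le_right _ _
      · exact min_le_left _ _

/-! ### The separating functional -/

/-- Boolean version of `a ≤ x` on `B 5`. -/
def leb (a x : B 5) : Bool :=
  (!a 0 || x 0) && (!a 1 || x 1) && (!a 2 || x 2) && (!a 3 || x 3) && (!a 4 || x 4)

lemma leb_iff (a x : B 5) : leb a x = true ↔ a ≤ x := by
  have h : ∀ p q : Bool, (p ≤ q) ↔ (!p || q) = true := by decide
  constructor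
  · intro hl i
    simp only [leb, Bool.and_eq_true] at hl
    obtain ⟨⟨⟨⟨h0, h1⟩, h2⟩, h3⟩, h4⟩ := hl
    rw [h]
    fin_cases i <;> assumption
  · intro hl
    simp only [leb, Bool.and_eq_true]
    exact ⟨⟨⟨⟨(h _ _).1 (hl 0), (h _ _).1 (hl 1)⟩, (h _ _).1 (hl 2)⟩, (h _ _).1 (hl 3)⟩,
      (h _ _).1 (hl 4)⟩

/-- Number of ones among coordinates `1,2,3,4`. -/
def cnt (x : B 5) : ℕ := (x 1).toNat + (x 2).toNat + (x 3).toNat + (x 4).toNat

/-- The functional. -/
def ell (x : B 5) : ℤ :=
  if x 0 = true then ([3, -3, -1, 9, -21] : List ℤ).getD (cnt x) 0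
  else ([-21, 9, -1, -3, 3] : List ℤ).getD (cnt x) 0

/-- Its up-set sums, in closed form. -/
def U (x : B 5) : ℤ :=
  if x 0 = true then ([0, 0, -4, -12, -21] : List ℤ).getD (cnt x) 0
  else ([0, 0, -8, -12, -18] : List ℤ).getD (cnt x) 0

/-- Prices. -/
def price (J : B 5) (e : Fin 5) : ℤ :=
  if J 0 = true then
    if e = 0 then ([0, 0, 0, 0, -3] : List ℤ).getD (cnt J) 0
    else ([0, 0, -4, -8, -9] : List ℤ).getD (cnt J) 0
  else ([0, 0, -8, -6, -6] : List ℤ).getD (cnt J) 0

lemma U_eq : ∀ a : B 5, (∑ x : B 5, if leb a x then ell x else 0) = U a := by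
  decide +kernel

lemma D_eq : ∀ a : B 5, (∑ x : B 5, if leb x a then ell x else 0) = U aᶜ := by
  decide +kernel

lemma ell_sum : (∑ x : B 5, ell x) = 0 := by decide +kernel

lemma price_nonpos : ∀ (J : B 5) (e : Fin 5), price J e ≤ 0 := by decide +kernel

lemma price_le : ∀ J a : B 5, leb a J = true →
    (∑ e : Fin 5, if J e = true ∧ a e = false then price J e else 0) ≤ U J - U a := by
  decide +kernel

lemma price_total : ∀ J : B 5, 2 * U J ≤ ∑ e : Fin 5, if J e = true then price J e else 0 := by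
  decide +kernel

/-- The key inequality for a family with all pairwise joins equal to `J`. -/
lemma fan_ineq {ι : Type*} (s : Finset ι) (r : ι → B 5) (J : B 5)
    (hle : ∀ i ∈ s, r i ≤ J) (hj : ∀ i ∈ s, ∀ l ∈ s, i ≠ l → r i ⊔ r l = J) :
    2 * U J ≤ ∑ i ∈ s, (U J - U (r i)) := by
  calc 2 * U J ≤ ∑ e : Fin 5, (if J e = true then price J e else 0) := price_total J
    _ ≤ ∑ e : Fin 5, ∑ i ∈ s, (if J e = true ∧ r i e = false then price J e else 0) := by
        refine Finset.sum_le_sum fun e _ => ?_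
        by_cases hJ : J e = true
        · simp only [hJ, true_and, if_true]
          by_cases hex : ∃ i ∈ s, r i e = false
          · obtain ⟨i, hi, hie⟩ := hex
            rw [Finset.sum_eq_single_of_mem i hi]
            · simp [hie]
            · intro l hl hli
              have h1 := congrFun (hj l hl i hi hli) e
              rw [Pi.sup_apply, hie, hJ] at h1
              have h2 : r l e = true := by
                revert h1
                cases r l e <;> simp
              simp [h2]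
          · push Not at hex
            rw [Finset.sum_eq_zero]
            · exact price_nonpos J e
            · intro i hi
              simp [hex i hi]
        · simp [hJ]
    _ = ∑ i ∈ s, ∑ e : Fin 5, (if J e = true ∧ r i e = false then price J e else 0) :=
        Finset.sum_comm
    _ ≤ ∑ i ∈ s, (U J - U (r i)) :=
        Finset.sum_le_sum fun i hi => price_le J (r i) ((leb_iff _ _).2 (hle i hi))

/-! ### Embedding `B 5` into `B k` -/

/-- Repeat the last coordinate. -/
def sig {k : ℕ} (x : B 5) : B k := fun i => x ⟨min i.val 4, by omega⟩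

/-- Lower adjoint of `sig`. -/
def rl {k : ℕ} (a : B k) : B 5 := fun j => decide (∃ i : Fin k, min i.val 4 = j.val ∧ a i = true)

/-- Upper adjoint of `sig`. -/
def ru {k : ℕ} (a : B k) : B 5 := fun j => decide (∀ i : Fin k, min i.val 4 = j.val → a i = true)

lemma ble {p q : Bool} : p ≤ q ↔ (p = true → q = true) := by
  revert p q; decide

lemma gc_l {k : ℕ} : GaloisConnection (rl : B k → B 5) sig := by
  intro a x
  rw [Pi.le_def, Pi.le_def]
  constructor
  · intro h i
    rw [ble]
    intro hi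
    exact ble.1 (h ⟨min i.val 4, by omega⟩) (by simp only [rl, decide_eq_true_eq]; exact ⟨i, rfl, hi⟩)
  · intro h j
    rw [ble]
    intro hj
    simp only [rl, decide_eq_true_eq] at hj
    obtain ⟨i, hi, hai⟩ := hj
    have := ble.1 (h i) hai
    simp only [sig] at this
    have h2 : (⟨min i.val 4, by omega⟩ : Fin 5) = j := Fin.ext hi
    rwa [h2] at this

lemma gc_u {k : ℕ} : GaloisConnection sig (ru : B k → B 5) := by
  intro x a
  rw [Pi.le_def, Pi.le_def]
  constructor
  · intro h j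
    rw [ble]
    intro hj
    simp only [ru, decide_eq_true_eq]
    intro i hi
    refine ble.1 (h i) ?_
    have h2 : (⟨min i.val 4, by omega⟩ : Fin 5) = j := Fin.ext hi
    simp only [sig]
    rwa [h2]
  · intro h i
    rw [ble]
    intro hi
    have := ble.1 (h ⟨min i.val 4, by omega⟩) hi
    simp only [ru, decide_eq_true_eq] at this
    exact this i rfl

lemma sum_ind (b : B 5) :
    (∑ x : B 5, (ell x : ℝ) * (if leb b x = true then 1 else 0)) = (U b : ℝ) := by
  rw [← U_eq b]
  push_cast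
  refine Finset.sum_congr rfl fun x _ => ?_
  split_ifs <;> simp

lemma sum_ind' (b : B 5) :
    (∑ x : B 5, (ell x : ℝ) * (if leb x b = true then 1 else 0)) = (U bᶜ : ℝ) := by
  rw [← D_eq b]
  push_cast
  refine Finset.sum_congr rfl fun x _ => ?_
  split_ifs <;> simp

lemma combine {ι : Type*} (A : Finset ι) (φ : B 5 → ℝ) (I : ι → B 5 → ℝ) (IJ : B 5 → ℝ)
    (key : ∀ x, φ x = -(2 * IJ x + ∑ a ∈ A, (I a x - IJ x))) :
    (∑ x : B 5, (ell x : ℝ) * φ x) =
      -(2 * (∑ x : B 5, (ell x : ℝ) * IJ x) +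
        ∑ a ∈ A, ((∑ x : B 5, (ell x : ℝ) * I a x) - ∑ x : B 5, (ell x : ℝ) * IJ x)) := by
  simp_rw [← Finset.sum_sub_distrib]
  rw [Finset.sum_comm, Finset.mul_sum, ← Finset.sum_add_distrib, ← Finset.sum_neg_distrib]
  refine Finset.sum_congr rfl fun x _ => ?_
  rw [key x]
  simp_rw [← mul_sub]
  rw [← Finset.mul_sum]
  ring

lemma Lf_upper {k : ℕ} (A : Finset (B k)) (hA : JoinFamily A) :
    0 ≤ ∑ x : B 5, (ell x : ℝ) * upperFan A (sig x) := by
  have hjoin := hA.2
  have hle : ∀ a ∈ A, a ≤ A.sup id := fun a ha => Finset.le_sup (f := id) ha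
  have key : ∀ x : B 5, upperFan A (sig x) =
      -(2 * (if leb (rl (A.sup id)) x = true then (1 : ℝ) else 0) +
        ∑ a ∈ A, ((if leb (rl a) x = true then (1 : ℝ) else 0) -
          (if leb (rl (A.sup id)) x = true then (1 : ℝ) else 0))) := by
    intro x
    classical
    have hI : ∀ a : B k, (leb (rl a) x = true) ↔ a ≤ sig x := fun a =>
      (leb_iff _ _).trans (gc_l a x)
    simp only [hI]
    unfold upperFan
    by_cases h : A.sup id ≤ sig x
    · rw [if_pos h, if_pos h]
      rw [Finset.sum_eq_zero]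
      · norm_num
      · intro a ha
        rw [if_pos ((hle a ha).trans h)]
        norm_num
    · rw [if_neg h, if_neg h]
      by_cases hex : ∃ a ∈ A, a ≤ sig x
      · rw [if_pos hex]
        obtain ⟨a, ha, hax⟩ := hex
        rw [Finset.sum_eq_single_of_mem a ha]
        · rw [if_pos hax]; norm_num
        · intro b hb hba
          have : ¬ b ≤ sig x := by
            intro hbx
            apply h
            rw [← hjoin b hb a ha hba]
            exact sup_le hbx hax
          rw [if_neg this]; norm_num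
      · rw [if_neg hex]
        push Not at hex
        rw [Finset.sum_eq_zero]
        · norm_num
        · intro a ha
          rw [if_neg (hex a ha)]; norm_num
  rw [combine A _ _ _ key]
  simp_rw [sum_ind]
  have h := fan_ineq A rl (rl (A.sup id)) (fun a ha => gc_l.monotone_l (hle a ha))
    (fun a ha b hb hab => by rw [← gc_l.l_sup, hjoin a ha b hb hab])
  have h' : (2 : ℝ) * (U (rl (A.sup id)) : ℝ) ≤
      ∑ a ∈ A, ((U (rl (A.sup id)) : ℝ) - (U (rl a) : ℝ)) := by exact_mod_cast h
  have h'' : (∑ a ∈ A, ((U (rl a) : ℝ) - (U (rl (A.sup id)) : ℝ))) =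
      - ∑ a ∈ A, ((U (rl (A.sup id)) : ℝ) - (U (rl a) : ℝ)) := by
    rw [← Finset.sum_neg_distrib]
    exact Finset.sum_congr rfl fun a _ => by ring
  rw [h'']
  linarith

lemma Lf_lower {k : ℕ} (A : Finset (B k)) (hA : MeetFamily A) :
    0 ≤ ∑ x : B 5, (ell x : ℝ) * lowerFan A (sig x) := by
  have hmeet := hA.2
  have hle : ∀ a ∈ A, A.inf id ≤ a := fun a ha => Finset.inf_le (f := id) ha
  have key : ∀ x : B 5, lowerFan A (sig x) =
      -(2 * (if leb x (ru (A.inf id)) = true then (1 : ℝ) else 0) +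
        ∑ a ∈ A, ((if leb x (ru a) = true then (1 : ℝ) else 0) -
          (if leb x (ru (A.inf id)) = true then (1 : ℝ) else 0))) := by
    intro x
    classical
    have hI : ∀ a : B k, (leb x (ru a) = true) ↔ sig x ≤ a := fun a =>
      (leb_iff _ _).trans (gc_u x a).symm
    simp only [hI]
    unfold lowerFan
    by_cases h : sig x ≤ A.inf id
    · rw [if_pos h, if_pos h]
      rw [Finset.sum_eq_zero]
      · norm_num
      · intro a ha
        rw [if_pos (h.trans (hle a ha))]
        norm_num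
    · rw [if_neg h, if_neg h]
      by_cases hex : ∃ a ∈ A, sig x ≤ a
      · rw [if_pos hex]
        obtain ⟨a, ha, hax⟩ := hex
        rw [Finset.sum_eq_single_of_mem a ha]
        · rw [if_pos hax]; norm_num
        · intro b hb hba
          have : ¬ sig x ≤ b := by
            intro hbx
            apply h
            rw [← hmeet b hb a ha hba]
            exact le_inf hbx hax
          rw [if_neg this]; norm_num
      · rw [if_neg hex]
        push Not at hex
        rw [Finset.sum_eq_zero]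
        · norm_num
        · intro a ha
          rw [if_neg (hex a ha)]; norm_num
  rw [combine A _ _ _ key]
  simp_rw [sum_ind']
  have h := fan_ineq A (fun a => (ru a)ᶜ) ((ru (A.inf id))ᶜ)
    (fun a ha => compl_le_compl (gc_u.monotone_u (hle a ha)))
    (fun a ha b hb hab => by
      show (ru a)ᶜ ⊔ (ru b)ᶜ = _
      rw [← compl_inf, ← gc_u.u_inf, hmeet a ha b hb hab])
  have h' : (2 : ℝ) * (U (ru (A.inf id))ᶜ : ℝ) ≤
      ∑ a ∈ A, ((U (ru (A.inf id))ᶜ : ℝ) - (U (ru a)ᶜ : ℝ)) := by exact_mod_cast h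
  have h'' : (∑ a ∈ A, ((U (ru a)ᶜ : ℝ) - (U (ru (A.inf id))ᶜ : ℝ))) =
      - ∑ a ∈ A, ((U (ru (A.inf id))ᶜ : ℝ) - (U (ru a)ᶜ : ℝ)) := by
    rw [← Finset.sum_neg_distrib]
    exact Finset.sum_congr rfl fun a _ => by ring
  rw [h'']
  linarith

/-! ### Value of the functional on the threshold function -/

/-- Integer version of the threshold function on `B 5`. -/
def thrI (x : B 5) : ℤ :=
  min 0 (3 - (2 * (if x 0 = true then 1 else 0) + (if x 1 = true then 1 else 0) +
    (if x 2 = true then 1 else 0) + (if x 3 = true then 1 else 0) +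
    (if x 4 = true then 1 else 0)))

lemma thrI_sum : (∑ x : B 5, ell x * thrI x) = -6 := by decide +kernel

lemma thr_sig {k : ℕ} (hk : 5 ≤ k) (x : B 5) : thr hk (sig x) = (thrI x : ℝ) := by
  unfold thr thrI wt val sig
  push_cast
  rfl

lemma thr_not_cone {k : ℕ} (hk : 5 ≤ k) : ¬ InFanCone (thr hk) := by
  rintro ⟨r, φ, c, κ, hφ, hc, hf⟩
  have h1 : (∑ x : B 5, (ell x : ℝ) * thr hk (sig x)) = -6 := by
    simp_rw [thr_sig hk]
    exact_mod_cast thrI_sum
  have h2 : (∑ x : B 5, (ell x : ℝ) * thr hk (sig x)) =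
      ∑ i, c i * ∑ x : B 5, (ell x : ℝ) * φ i (sig x) := by
    simp_rw [hf, mul_add, Finset.sum_add_distrib, ← Finset.sum_mul]
    have h3 : (∑ x : B 5, (ell x : ℝ)) = 0 := by exact_mod_cast ell_sum
    rw [h3, zero_mul, add_zero]
    simp_rw [Finset.mul_sum]
    rw [Finset.sum_comm]
    exact Finset.sum_congr rfl fun i _ => Finset.sum_congr rfl fun x _ => by ring
  have h3 : 0 ≤ ∑ i, c i * ∑ x : B 5, (ell x : ℝ) * φ i (sig x) := by
    refine Finset.sum_nonneg fun i _ => mul_nonneg (hc i) ?_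
    rcases hφ i with ⟨A, hA, h⟩ | ⟨A, hA, h⟩
    · rw [h]; exact Lf_upper A hA
    · rw [h]; exact Lf_lower A hA
  linarith

/-- **Main result.**  For every `k ≥ 5` the function `min(0, 3 - 2x₀ - x₁ - x₂ - x₃ - x₄)` on
`{0,1}^k` is submodular, expressible by binary submodular functions with one extra variable, and
not in the cone of fans (even up to a constant).  In particular the equality
`Γ_{sub,k} ∩ ⟨Γ_{sub,2}⟩ = Cone(Γ_{fans,k})` fails for every `k ≥ 5`, so Q1 has a negative
answer. -/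
theorem result :
    (∀ (k : ℕ) (hk : 5 ≤ k),
      Submodular (thr hk) ∧ ExpressibleWith 1 (thr hk) ∧ ¬ InFanCone (thr hk)) ∧
    ¬ (∀ (k : ℕ) (f : B k → ℝ), (Submodular f ∧ Expressible f) ↔ InFanCone f) := by
  refine ⟨fun k hk => ⟨thr_submodular hk, thr_expressible hk, thr_not_cone hk⟩, fun h => ?_⟩
  exact thr_not_cone (le_refl 5)
    ((h 5 _).1 ⟨thr_submodular (le_refl 5), 1, thr_expressible (le_refl 5)⟩)

end Pool.Agent.Results.MP_09575c_lc.ThresholdNotFans
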